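import Pool.Agent.Helper15.FC.St2

/-! # Project FC (MP_16cbc0_nt), module AVT: Cauchy's bound, discrete -/

set_option autoImplicit false

namespace Pool.Agent.Helper94.FC

open Pool.Agent.Helper15.FC Polynomial

private theorem avt_sum {T : ℕ} {ζ : ℂ} (hζ : IsPrimitiveRoot ζ T) (hT : 1 ≤ T) {i k : ℕ}
    (hi : i < T) (hk : k < T) :
    ∑ j ∈ Finset.range T, (ζ⁻¹) ^ (i * j) * ζ ^ (k * j) = if k = i then (T : ℂ) else 0 := by
  have hζ0 : ζ ≠ 0 := hζ.ne_zero (by omega)
  have h1 : ∀ j, (ζ⁻¹) ^ (i * j) * ζ ^ (k * j) = ((ζ⁻¹) ^ i * ζ ^ k) ^ j := by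
    intro j
    rw [mul_pow, ← pow_mul, ← pow_mul]
  simp only [h1]
  split_ifs with h
  · subst h
    have h2 : (ζ⁻¹) ^ k * ζ ^ k = 1 := by
      rw [← mul_pow, inv_mul_cancel₀ hζ0, one_pow]
    rw [Finset.sum_congr rfl (fun j _ => by rw [h2, one_pow]), Finset.sum_const,
      Finset.card_range, nsmul_eq_mul, mul_one]
  · have hw : (ζ⁻¹) ^ i * ζ ^ k ≠ 1 := by
      intro hw
      apply h
      have h3 : ζ ^ k = ζ ^ i := by
        rw [inv_pow] at hw
        field_simp at hw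
        exact hw
      exact hζ.pow_inj hk hi h3
    have hwT : ((ζ⁻¹) ^ i * ζ ^ k) ^ T = 1 := by
      rw [mul_pow, ← pow_mul, ← pow_mul, mul_comm i T, mul_comm k T, pow_mul, pow_mul, inv_pow,
        hζ.pow_eq_one]
      simp
    have h4 := mul_geom_sum ((ζ⁻¹) ^ i * ζ ^ k) T
    rw [hwT, sub_self] at h4
    rcases mul_eq_zero.1 h4 with h5 | h5
    · exact absurd (sub_eq_zero.1 h5) hw
    · exact h5

theorem hAVT : StAVT := by
  intro T ρ hT hρ
  obtain ⟨ζ, hζdef⟩ : ∃ ζ : ℂ, ζ = Complex.exp (2 * Real.pi * Complex.I / T) := ⟨_, rfl⟩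
  have hζ : IsPrimitiveRoot ζ T := by
    rw [hζdef]
    exact Complex.isPrimitiveRoot_exp T (by omega)
  have hζn : ‖ζ‖ = 1 := hζ.norm'_eq_one (by omega)
  have hTR : (0 : ℝ) < T := by exact_mod_cast hT
  refine ⟨fun j => (ρ : ℂ) * ζ ^ j, fun j => ?_, ?_⟩
  · rw [norm_mul, norm_pow, hζn, one_pow, mul_one, Complex.norm_real, Real.norm_of_nonneg hρ.le]
  · intro G hG i
    by_cases hi : i < T
    · have h1 : ∑ j ∈ Finset.range T, (ζ⁻¹) ^ (i * j) * G.eval ((ρ : ℂ) * ζ ^ j) =
          (T : ℂ) * (G.coeff i * (ρ : ℂ) ^ i) := by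
        have h2 : ∀ j, G.eval ((ρ : ℂ) * ζ ^ j) =
            ∑ k ∈ Finset.range T, G.coeff k * (ρ : ℂ) ^ k * ζ ^ (k * j) := by
          intro j
          rw [Polynomial.eval_eq_sum_range' hG]
          refine Finset.sum_congr rfl fun k _ => ?_
          rw [mul_pow, ← pow_mul, mul_comm j k, mul_assoc]
        calc ∑ j ∈ Finset.range T, (ζ⁻¹) ^ (i * j) * G.eval ((ρ : ℂ) * ζ ^ j)
            = ∑ j ∈ Finset.range T, ∑ k ∈ Finset.range T,
                G.coeff k * (ρ : ℂ) ^ k * ((ζ⁻¹) ^ (i * j) * ζ ^ (k * j)) := by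
              refine Finset.sum_congr rfl fun j _ => ?_
              rw [h2, Finset.mul_sum]
              exact Finset.sum_congr rfl fun k _ => by ring
          _ = ∑ k ∈ Finset.range T, G.coeff k * (ρ : ℂ) ^ k *
                ∑ j ∈ Finset.range T, (ζ⁻¹) ^ (i * j) * ζ ^ (k * j) := by
              rw [Finset.sum_comm]
              exact Finset.sum_congr rfl fun k _ => by rw [Finset.mul_sum]
          _ = ∑ k ∈ Finset.range T, G.coeff k * (ρ : ℂ) ^ k * (if k = i then (T : ℂ) else 0) := by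
              refine Finset.sum_congr rfl fun k hk => ?_
              rw [avt_sum hζ hT hi (Finset.mem_range.1 hk)]
          _ = (T : ℂ) * (G.coeff i * (ρ : ℂ) ^ i) := by
              rw [Finset.sum_eq_single i]
              · rw [if_pos rfl]
                ring
              · intro k _ hk
                rw [if_neg hk, mul_zero]
              · intro h
                exact absurd (Finset.mem_range.2 hi) h
      have h3 : (T : ℝ) * (‖G.coeff i‖ * ρ ^ i) ≤
          ∑ j ∈ Finset.range T, ‖G.eval ((ρ : ℂ) * ζ ^ j)‖ := by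
        have h4 := norm_sum_le (Finset.range T)
          (fun j => (ζ⁻¹) ^ (i * j) * G.eval ((ρ : ℂ) * ζ ^ j))
        rw [h1] at h4
        have h5 : ‖(T : ℂ) * (G.coeff i * (ρ : ℂ) ^ i)‖ = (T : ℝ) * (‖G.coeff i‖ * ρ ^ i) := by
          rw [norm_mul, norm_mul, norm_pow, Complex.norm_natCast, Complex.norm_real,
            Real.norm_of_nonneg hρ.le]
        rw [h5] at h4
        refine h4.trans (le_of_eq (Finset.sum_congr rfl fun j _ => ?_))
        rw [norm_mul, norm_pow, norm_inv, hζn, inv_one, one_pow, one_mul]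
      have h6 := sq_sum_le_card_mul_sum_sq (s := Finset.range T)
        (f := fun j => ‖G.eval ((ρ : ℂ) * ζ ^ j)‖)
      rw [Finset.card_range] at h6
      have h7 : ((T : ℝ) * (‖G.coeff i‖ * ρ ^ i)) ^ 2 ≤
          (T : ℝ) * ∑ j ∈ Finset.range T, ‖G.eval ((ρ : ℂ) * ζ ^ j)‖ ^ 2 :=
        (pow_le_pow_left₀ (by positivity) h3 2).trans h6
      have h8 : ((T : ℝ) * (‖G.coeff i‖ * ρ ^ i)) ^ 2 =
          (T : ℝ) * ((T : ℝ) * (‖G.coeff i‖ ^ 2 * ρ ^ (2 * i))) := by
        rw [mul_comm 2 i, pow_mul]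
        ring
      rw [h8] at h7
      have h9 := le_of_mul_le_mul_left h7 hTR
      rw [one_div, ← div_eq_inv_mul, le_div_iff₀ hTR]
      linarith
    · have h1 : G.coeff i = 0 := Polynomial.coeff_eq_zero_of_natDegree_lt (by omega)
      rw [h1]
      simp only [norm_zero, ne_eq, OfNat.ofNat_ne_zero, not_false_eq_true, zero_pow, zero_mul]
      positivity

end Pool.Agent.Helper94.FC
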