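import Pool.Agent.Helper15.FC.St1

/-! # Project FC (MP_16cbc0_nt), module GR1: properties of `XXm` -/

set_option autoImplicit false

namespace Pool.Agent.Helper94.FC

open Pool.Agent.Helper15.FC Polynomial

private theorem gr_deg {F K : Type} [Field F] [Field K] [Algebra F K] (q : ℕ) (hq : 2 ≤ q)
    {b : ℕ} (a0 : K) (AA BB : Matrix (Fin b) (Fin b) F) : ∀ s : ℕ, ∀ i j,
    (XXm q s a0 AA BB i j).natDegree ≤ q ^ s - 1 := by
  intro s
  induction s with
  | zero =>
    intro i j
    have h : XXm q 0 a0 AA BB = 1 := by simp [XXm]
    rw [h, Matrix.one_apply]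
    split_ifs <;> simp
  | succ s ih =>
    intro i j
    have h : XXm q (s + 1) a0 AA BB = XXm q s a0 AA BB *
        (AA.map (fun x => (C (algebraMap F K x) : K[X])) -
          (C (a0 ^ (q ^ s)) + X ^ (q ^ s) : K[X]) •
            BB.map (fun x => (C (algebraMap F K x) : K[X]))) := by
      simp [XXm, List.range_succ]
    rw [h, Matrix.mul_apply]
    refine natDegree_sum_le_of_forall_le _ _ fun k _ => ?_
    refine (natDegree_mul_le).trans ?_
    have h1 := ih i k
    have h2 : ((AA.map (fun x => (C (algebraMap F K x) : K[X])) -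
          (C (a0 ^ (q ^ s)) + X ^ (q ^ s) : K[X]) •
            BB.map (fun x => (C (algebraMap F K x) : K[X]))) k j).natDegree ≤ q ^ s := by
      rw [Matrix.sub_apply, Matrix.smul_apply, Matrix.map_apply, Matrix.map_apply, smul_eq_mul]
      refine (natDegree_sub_le _ _).trans (max_le ?_ ?_)
      · rw [natDegree_C]
        exact Nat.zero_le _
      · refine (natDegree_mul_C_le _ _).trans ?_
        refine (natDegree_add_le _ _).trans (max_le ?_ ?_)
        · rw [natDegree_C]
          exact Nat.zero_le _
        · rw [natDegree_X_pow]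
    have h3 : 1 ≤ q ^ s := Nat.one_le_pow _ _ (by omega)
    have h4 : q ^ (s + 1) = q ^ s * q := pow_succ q s
    have h5 : q ^ s * 2 ≤ q ^ s * q := Nat.mul_le_mul_left _ hq
    omega

private theorem gr_map {F K L : Type} [Field F] [Field K] [Algebra F K] [Field L]
    (φ : K[X] →+* L) (q s b : ℕ) (a0 : K) (AA BB : Matrix (Fin b) (Fin b) F) :
    (XXm q s a0 AA BB).map (fun p => φ p) =
      ((List.range s).map (fun i => AA.map (fun x => φ (C (algebraMap F K x))) -
        (φ (C a0) ^ (q ^ i) + φ X ^ (q ^ i)) • BB.map (fun x => φ (C (algebraMap F K x))))).prod := by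
  have h0 : (XXm q s a0 AA BB).map (fun p => φ p) = φ.mapMatrix (XXm q s a0 AA BB) := rfl
  rw [h0, XXm, map_list_prod, List.map_map]
  congr 1
  refine List.map_congr_left fun i _ => ?_
  simp only [Function.comp]
  ext r c
  simp only [RingHom.mapMatrix_apply, Matrix.map_apply, Matrix.sub_apply, Matrix.smul_apply,
    smul_eq_mul, map_sub, map_mul, map_add, map_pow]

private theorem gr_comm {L : Type} [Field L] {b : ℕ} (A B : Matrix (Fin b) (Fin b) L)
    (h : A * B = B * A) (x y : L) : Commute (A - x • B) (A - y • B) := by
  have hAB : Commute A B := h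
  have hAA : Commute A A := Commute.refl A
  have hBB : Commute B B := Commute.refl B
  refine Commute.sub_left (Commute.sub_right hAA (hAB.smul_right y)) ?_
  exact Commute.sub_right (hAB.symm.smul_left x) ((hBB.smul_left x).smul_right y)

theorem hGR1 : StGR1 := by
  intro F K _ _ _ _ _ s1 b a0 AA BB hs1 hcard hcomm
  have hq2 : 2 ≤ Fintype.card F := Fintype.one_lt_card
  have hq0 : 0 < Fintype.card F := by omega
  refine ⟨?_, ?_, ?_⟩
  · intro i j
    rw [hcard]
    exact gr_deg _ hq2 a0 AA BB s1 i j
  · have h := gr_map (evalRingHom (0 : K)) (Fintype.card F) s1 b a0 AA BB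
    have h0 : (XXm (Fintype.card F) s1 a0 AA BB).map (fun p => p.eval 0) =
        (XXm (Fintype.card F) s1 a0 AA BB).map (fun p => (evalRingHom (0 : K)) p) := rfl
    rw [h0, h]
    congr 1
    refine List.map_congr_left fun i _ => ?_
    have h1 : (0 : K) ^ (Fintype.card F ^ i) = 0 := zero_pow (pow_pos hq0 i).ne'
    ext r c
    simp [h1]
  · intro L _ _ _ _ z t
    obtain ⟨p, hp⟩ := CharP.exists F
    obtain ⟨f, hpp, hpf⟩ := FiniteField.card F p
    have : Fact p.Prime := ⟨hpp⟩
    have : CharP L p := charP_of_injective_algebraMap (algebraMap F L).injective p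
    have hfrob : ∀ (x y : L) (n : ℕ), (x + y) ^ (Fintype.card F ^ n) =
        x ^ (Fintype.card F ^ n) + y ^ (Fintype.card F ^ n) := by
      intro x y n
      rw [hpf, ← pow_mul]
      exact add_pow_char_pow x y p _
    have ha0 : ∀ t : ℕ, a0 ^ (Fintype.card K ^ t) = a0 := fun t => FiniteField.pow_card_pow t a0
    have hKt : ∀ t : ℕ, Fintype.card K ^ t = Fintype.card F ^ (s1 * t) := by
      intro t
      rw [hcard, pow_mul]
    have hcommL : (AA.map (algebraMap F L)) * (BB.map (algebraMap F L)) =
        (BB.map (algebraMap F L)) * (AA.map (algebraMap F L)) := by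
      rw [← Matrix.map_mul, hcomm, Matrix.map_mul]
    induction t with
    | zero => simp [NmX]
    | succ t ih =>
      have h1 : NmX (XXm (Fintype.card F) s1 a0 AA BB) (Fintype.card K) z (t + 1) =
          ((XXm (Fintype.card F) s1 a0 AA BB).map
            (fun p => aeval (z ^ (Fintype.card K ^ t)) p)) *
          NmX (XXm (Fintype.card F) s1 a0 AA BB) (Fintype.card K) z t := rfl
      have h2 : (XXm (Fintype.card F) s1 a0 AA BB).map
            (fun p => aeval (z ^ (Fintype.card K ^ t)) p) =
          ((List.range s1).map (fun i => AA.map (algebraMap F L) -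
            (algebraMap K L a0 + z) ^ (Fintype.card F ^ (s1 * t + i)) •
              BB.map (algebraMap F L))).prod := by
        have h := gr_map (aeval (R := K) (z ^ (Fintype.card K ^ t))).toRingHom (Fintype.card F) s1 b
          a0 AA BB
        have h0 : (XXm (Fintype.card F) s1 a0 AA BB).map
            (fun p => aeval (z ^ (Fintype.card K ^ t)) p) =
            (XXm (Fintype.card F) s1 a0 AA BB).map
            (fun p => (aeval (R := K) (z ^ (Fintype.card K ^ t))).toRingHom p) := rfl
        rw [h0, h]
        congr 1
        refine List.map_congr_left fun i _ => ?_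
        have h3 : (algebraMap K L a0) ^ (Fintype.card F ^ i) =
            (algebraMap K L a0) ^ (Fintype.card F ^ (s1 * t + i)) := by
          rw [pow_add, pow_mul (algebraMap K L a0), ← hKt,
            ← map_pow (algebraMap K L) a0 (Fintype.card K ^ t), ha0]
        have h4 : (z ^ (Fintype.card K ^ t)) ^ (Fintype.card F ^ i) =
            z ^ (Fintype.card F ^ (s1 * t + i)) := by
          rw [← pow_mul, hKt, ← pow_add]
        have h5 : ∀ x : F, (aeval (R := K) (z ^ (Fintype.card K ^ t))).toRingHom
            (C (algebraMap F K x)) = algebraMap F L x := by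
          intro x
          have : (aeval (R := K) (z ^ (Fintype.card K ^ t))) (C (algebraMap F K x)) =
              algebraMap K L (algebraMap F K x) := aeval_C _ _
          rw [IsScalarTower.algebraMap_apply F K L x]
          exact this
        have h6 : (aeval (R := K) (z ^ (Fintype.card K ^ t))).toRingHom (C a0) =
            algebraMap K L a0 := aeval_C _ _
        have h7 : (aeval (R := K) (z ^ (Fintype.card K ^ t))).toRingHom X =
            z ^ (Fintype.card K ^ t) := aeval_X _
        rw [h6, h7, h3, h4, ← hfrob]
        ext r c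
        simp only [Matrix.sub_apply, Matrix.smul_apply, Matrix.map_apply, h5]
      rw [h1, h2, ih, Nat.mul_succ, List.range_add, List.map_append, List.prod_append, List.map_map]
      refine (Commute.list_prod_left _ _ fun x hx => Commute.list_prod_right _ _ fun y hy => ?_).eq
      rw [List.mem_map] at hx hy
      obtain ⟨i, -, rfl⟩ := hx
      obtain ⟨j, -, rfl⟩ := hy
      exact gr_comm _ _ hcommL _ _

end Pool.Agent.Helper94.FC
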