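import Pool.Agent.Helper15.FC.St5

/-! # Project FC (MP_16cbc0_nt), module DSM: sum of a multiplicative function over divisors -/

set_option autoImplicit false

namespace Pool.Agent.Helper94.FC

open Pool.Agent.Helper15.FC Polynomial

private theorem dsm_coprime {F : Type} [Field F] {P Q : F[X]} (hP : P.Monic) (hPi : Irreducible P)
    (hQ : Q.Monic) (hQi : Irreducible Q) (hne : P ≠ Q) : IsCoprime P Q := by
  rw [hPi.coprime_iff_not_dvd]
  intro hd
  exact hne (Polynomial.eq_of_monic_of_associated hP hQ (hPi.associated_of_dvd hQi hd))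

theorem hDSM (hDVM : StDVM) : StDSM := by
  classical
  intro F _ _ w PP a hw1 hmul hPP
  obtain ⟨hD1, hD2⟩ := hDVM F
  induction PP using Finset.induction_on with
  | empty =>
    have h := hD2 X 0 w monic_X irreducible_X
    rw [pow_zero] at h
    rw [Finset.prod_empty, Finset.prod_empty, h]
    simp [hw1]
  | insert P s hPs ih =>
    have hP := hPP P (Finset.mem_insert_self P s)
    have hs : ∀ Q ∈ s, Q.Monic ∧ Irreducible Q := fun Q hQ => hPP Q (Finset.mem_insert_of_mem hQ)
    have hmonP : (P ^ a).Monic := hP.1.pow a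
    have hmons : (∏ Q ∈ s, Q ^ a).Monic :=
      Polynomial.monic_prod_of_monic _ _ fun Q hQ => (hs Q hQ).1.pow a
    have hcop : IsCoprime (P ^ a) (∏ Q ∈ s, Q ^ a) := by
      refine IsCoprime.prod_right fun Q hQ => ?_
      refine IsCoprime.pow ?_
      refine dsm_coprime hP.1 hP.2 (hs Q hQ).1 (hs Q hQ).2 ?_
      rintro rfl
      exact hPs hQ
    rw [Finset.prod_insert hPs, Finset.prod_insert hPs, hD1 _ _ w hmonP hmons hcop, ← ih hs,
      ← hD2 P a w hP.1 hP.2, Finset.sum_mul]
    refine Finset.sum_congr rfl fun c hc => ?_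
    rw [Finset.mul_sum]
    refine Finset.sum_congr rfl fun e he => ?_
    have hc' := (mem_Dv hmonP.ne_zero).1 hc
    have he' := (mem_Dv hmons.ne_zero).1 he
    exact hmul c e hc'.1 he'.1
      (IsCoprime.of_isCoprime_of_dvd_left (IsCoprime.of_isCoprime_of_dvd_right hcop he'.2) hc'.2)

end Pool.Agent.Helper94.FC
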